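import Mathlib
import Pool.Agent.W425.GN.Defs

set_option autoImplicit false

/-! Project GN, part B2: the roots of the `b`-functions, special fibre. -/

namespace Pool.Agent.W311.GN

open MvPolynomial Pool.Agent.H628R4.TP Pool.Agent.W425.GN

variable {n : ℕ} {R : Type} [CommRing R]

theorem act_add (P Q : MvPolynomial (Sy n) R) (s : ℕ) (φ : MvPolynomial (Fin n) R) :
    act (P + Q) s φ = act P s φ + act Q s φ := by
  unfold act
  exact map_add _ _ _

theorem act_smul (a : R) (P : MvPolynomial (Sy n) R) (s : ℕ) (φ : MvPolynomial (Fin n) R) :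
    act (a • P) s φ = a • act P s φ := by
  unfold act
  exact map_smul _ _ _

theorem exists_mul (hA1 : TaskA1) (P : MvPolynomial (Sy n) R) (p : Polynomial R) :
    ∃ P' : MvPolynomial (Sy n) R, ∀ (s : ℕ) (φ : MvPolynomial (Fin n) R),
      act P' s φ = C (p.eval (s : R)) * act P s φ := by
  induction p using Polynomial.induction_on' with
  | add p q hp hq =>
    obtain ⟨P1, h1⟩ := hp
    obtain ⟨P2, h2⟩ := hq
    refine ⟨P1 + P2, fun s φ => ?_⟩
    rw [act_add, h1, h2, Polynomial.eval_add, C_add]
    ring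
  | monomial k a =>
    induction k with
    | zero =>
      refine ⟨a • P, fun s φ => ?_⟩
      rw [act_smul, smul_eq_C_mul]
      simp
    | succ k ih =>
      obtain ⟨P1, h1⟩ := ih
      refine ⟨ls P1, fun s φ => ?_⟩
      rw [(hA1 P1 s φ).2.1, h1]
      simp only [Polynomial.eval_monomial, C_mul, C_pow, pow_succ]
      have : (C (s : R) : MvPolynomial (Fin n) R) = (s : MvPolynomial (Fin n) R) := by
        simp
      rw [this]
      ring

/-- Part B2. -/
theorem b2 : TaskB2 := by
  intro hA1 hA3 n f b hF α m hbad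
  by_contra hdiv
  apply hbad
  obtain ⟨P, hP⟩ := hF
  have hb0 : b ≠ 0 := by
    rintro rfl
    exact hdiv (dvd_zero _)
  have hk : b.rootMultiplicity α ≤ m := by
    by_contra hlt
    push Not at hlt
    exact hdiv ((pow_dvd_pow _ (by omega)).trans (Polynomial.pow_rootMultiplicity_dvd b α))
  obtain ⟨c, hc, hc2⟩ := Polynomial.exists_eq_pow_rootMultiplicity_mul_and_not_dvd b hb0 α
  generalize b.rootMultiplicity α = k at hk hc
  have hcop : IsCoprime c (Polynomial.X - Polynomial.C α) := by
    have hirr : Irreducible (Polynomial.X - Polynomial.C α) := Polynomial.irreducible_X_sub_C α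
    exact ((hirr.coprime_iff_not_dvd).2 hc2).symm
  obtain ⟨u, t, hut⟩ := hcop
  obtain ⟨P', hP'⟩ := exists_mul hA1 P (u * (Polynomial.X - Polynomial.C α) ^ (m - k))
  refine ⟨P', sy (t.map C), 0, fun s _ => ?_⟩
  have h4 := (hA3 (n := n) (R := ℂ)).2.2.2.1 (t.map C) s (f ^ s)
  have h5 : (t.map C).eval (s : MvPolynomial (Fin n) ℂ) = C (t.eval (s : ℂ)) := by
    have : (s : MvPolynomial (Fin n) ℂ) = C (s : ℂ) := by simp
    rw [this, Polynomial.eval_map, Polynomial.eval₂_at_apply]
  rw [h4, h5, hP', ← hP s]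
  have h6 : ((s : ℂ) - α) ^ m =
      (u * (Polynomial.X - Polynomial.C α) ^ (m - k)).eval (s : ℂ) * b.eval (s : ℂ)
        + ((s : ℂ) - α) ^ (m + 1) * t.eval (s : ℂ) := by
    have h7 : (u * (Polynomial.X - Polynomial.C α) ^ (m - k)) * b =
        (Polynomial.X - Polynomial.C α) ^ m * (u * c) := by
      rw [hc]
      have : (Polynomial.X - Polynomial.C α) ^ m =
          (Polynomial.X - Polynomial.C α) ^ (m - k) *
            (Polynomial.X - Polynomial.C α) ^ k := by
        rw [← pow_add]; congr 1; omega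
      rw [this]
      ring
    have h8 := congrArg (Polynomial.eval (s : ℂ)) h7
    have h9 := congrArg (Polynomial.eval (s : ℂ)) hut
    simp only [Polynomial.eval_mul, Polynomial.eval_pow, Polynomial.eval_sub, Polynomial.eval_X,
      Polynomial.eval_C, Polynomial.eval_add, Polynomial.eval_one] at h8 h9 ⊢
    rw [h8]
    have : Polynomial.eval (s : ℂ) u * Polynomial.eval (s : ℂ) c =
      1 - Polynomial.eval (s : ℂ) t * ((s : ℂ) - α) := by
      rw [← h9]; ring
    rw [this]
    ring
  rw [h6, C_add, C_mul, C_mul, add_mul]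
  rw [mul_assoc (C _) (C _) (f ^ s), mul_assoc (C _) (C _) (f ^ s)]

end Pool.Agent.W311.GN
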